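import Pool.Agent.Helper24.NR.Defs

/-!
# NR: the linear statistic over all zeros, thick form
-/

set_option autoImplicit false
open MeasureTheory Set Filter Topology
open Pool.Agent.Helper57.Zeta Pool.Agent.Helper57.LH Pool.Agent.Helper57.ED
open Pool.Agent.Helper54.LG (za zb qk SS MM)
open Pool.Agent.Helper93.UG (zc sp)
open Pool.Agent.Helper69.UG (XX NX near far)
open Pool.Agent.Helper57.TX (QX DP rs)
open Pool.Agent.Helper24.NR (Js wJ phi AL Tot)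

namespace Pool.Agent.Helper53.NR

theorem ev1 (K a b : ℝ) (h : b < a) : ∀ᶠ L : ℝ in atTop, K * L ^ (-a) ≤ L ^ (-b) := by
  have h1 : Tendsto (fun L : ℝ => K * L ^ (-(a - b))) atTop (𝓝 (K * 0)) :=
    (tendsto_rpow_neg_atTop (by linarith)).const_mul K
  rw [mul_zero] at h1
  filter_upwards [h1.eventually (gt_mem_nhds one_pos), eventually_gt_atTop 0] with L h2 h3
  have h4 : L ^ (-a) = L ^ (-(a - b)) * L ^ (-b) := by
    rw [← Real.rpow_add h3]; congr 1; ring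
  rw [h4, ← mul_assoc]
  have h5 := Real.rpow_pos_of_pos h3 (-b)
  nlinarith

theorem ev2 (K a b : ℝ) (h : b < a) : ∀ᶠ L : ℝ in atTop, K * (Real.log L * L ^ (-a)) ≤ L ^ (-b) := by
  have h0 := (isLittleO_log_rpow_atTop (show 0 < a - b by linarith)).tendsto_div_nhds_zero
  have h1 : Tendsto (fun L : ℝ => K * (Real.log L / L ^ (a - b))) atTop (𝓝 (K * 0)) := h0.const_mul K
  rw [mul_zero] at h1
  filter_upwards [h1.eventually (gt_mem_nhds one_pos), eventually_gt_atTop 0] with L h2 h3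
  have h4 : L ^ (-a) = L ^ (-(a - b)) * L ^ (-b) := by
    rw [← Real.rpow_add h3]; congr 1; ring
  have h5 := Real.rpow_pos_of_pos h3 (-b)
  have h6 : K * (Real.log L * L ^ (-a)) = (K * (Real.log L / L ^ (a - b))) * L ^ (-b) := by
    rw [h4, Real.rpow_neg h3.le (a - b)]
    ring
  rw [h6]
  nlinarith

theorem tot_thick_of
    (card_bd : ∃ C : ℝ, 1 ≤ C ∧ ∀ L : ℝ, C ≤ L → Real.log L / 6 ≤ ((Js L).card : ℝ) ∧ ((Js L).card : ℝ) ≤ Real.log L)
    (mem_Js : ∀ {L : ℝ} (_ : 1 ≤ L) {j : ℕ} (_ : j ∈ Js L), L ^ (1 / 6 : ℝ) ≤ 2 ^ j ∧ (2:ℝ) ^ j ≤ L ^ (1 / 3 : ℝ))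
    (mm_main : ∃ C T₀ : ℝ, 0 < C ∧ ∀ T M t : ℝ, T₀ ≤ T → 1 ≤ M → M ≤ Real.log T → t ∈ Pool.Agent.Helper57.TX.JJ T →
      |MM (XX T M) t - M| ≤ C * (M / Real.log T))
    (loss_thick : ∃ C M₀ T₀ : ℝ, 0 < C ∧ 1 ≤ M₀ ∧ ∀ T M : ℝ, T₀ ≤ T → M₀ ≤ M → M ≤ Real.log T → ∃ E : Set ℝ,
      volume E ≤ ENNReal.ofReal (C / M ^ (1 / 4 : ℝ) * T) ∧ ∀ t ∈ Icc (T / 2) (3 * T), ∀ u : ℝ, |u - t| ≤ sp T →
        C / M ^ (1 / 4 : ℝ) < |NX (XX T M) u - (MM (XX T M) u - SS (XX T M) u)| → t ∈ E)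
    (js_range : ∀ {L : ℝ} (_ : 64 ≤ L), ∃ a : ℕ, (∀ f : ℕ → ℝ, ∑ j ∈ Js L, f j = ∑ i ∈ Finset.range (Js L).card, f (a + i)) ∧
      L ≤ (2:ℝ) ^ (6 * a) ∧ 1 ≤ (Js L).card ∧ (2:ℝ) ^ (3 * (a + (Js L).card - 1)) ≤ L)
    (ss_thick : ∃ C c T0 : ℝ, 0 < C ∧ 0 < c ∧ ∀ (T e : ℝ) (a J : ℕ), T0 ≤ T → 1 ≤ J → J ≤ 2 ^ a → 2 ≤ a →
      1 / 2 ≤ Real.log T / 2 ^ (a + J) → 0 < e → e ≤ 1 → ∃ B : Set ℝ,
      volume B ≤ ENNReal.ofReal ((C * Real.exp (-(c * e ^ 2 * J)) + C * J * (1 / (2 ^ a * e)) ^ 2 +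
        C * (2 ^ (a + J) / (Real.log T * e)) ^ 2) * T) ∧
      ∀ t' ∈ Icc (T / 2) (3 * T), t' ∉ B → ∀ t, |t - t'| ≤ 2 * Real.pi / Real.log T →
        |∑ j ∈ Finset.range J, SS (Real.log T / 2 ^ (a + j)) t| ≤ e * J)
    (tot_eq : ∀ {T L t : ℝ} (_ : 1 < T), Tot T L t = wJ L * ∑ j ∈ Js L, NX (XX T (2 ^ j)) t) :
    ∃ c C T₀ : ℝ, 0 < c ∧ c ≤ 1 / 100 ∧ 1 ≤ C ∧ ∀ T L e : ℝ, T₀ ≤ T → C ≤ L → L ≤ Real.log T → 0 < e → e ≤ 1 →
    ∃ E : Set ℝ, volume E ≤ ENNReal.ofReal (C * L ^ (-(c * e ^ 2)) * T) ∧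
    ∀ t ∈ Icc (T / 2) (3 * T), ∀ u : ℝ, |u - t| ≤ sp T → e < |Tot T L u - AL L| → t ∈ E := by
  obtain ⟨C₁, hC₁, card_bd⟩ := card_bd
  obtain ⟨Cm, Tm, hCm, mm_main⟩ := mm_main
  obtain ⟨Cl, M₀, Tl, hCl, hM₀, loss_thick⟩ := loss_thick
  obtain ⟨Cs, cs, Ts, hCs, hcs, ss_thick⟩ := ss_thick
  -- eventual inequalities
  have hev : ∀ᶠ L : ℝ in atTop, 64 < L ∧ C₁ ≤ L ∧ M₀ ≤ L ^ (1 / 6 : ℝ) ∧ Real.log L ≤ L ^ (1 / 6 : ℝ) ∧
      6 * Cl * L ^ (-(1 / 24 : ℝ)) ≤ L ^ (-(1 / 100 : ℝ)) ∧ 6 * Cm * L ^ (-(2 / 3 : ℝ)) ≤ L ^ (-(1 / 100 : ℝ)) ∧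
      (16 * Cs) * (Real.log L * L ^ (-(94 / 300 : ℝ))) ≤ L ^ (-(1 / 100 : ℝ)) ∧
      (64 * Cs) * L ^ (-(394 / 300 : ℝ)) ≤ L ^ (-(1 / 100 : ℝ)) ∧
      Cl * (Real.log L * L ^ (-(1 / 24 : ℝ))) ≤ L ^ (-(1 / 100 : ℝ)) := by
    have e3 : ∀ᶠ L : ℝ in atTop, M₀ ≤ L ^ (1 / 6 : ℝ) :=
      (tendsto_rpow_atTop (by norm_num)).eventually_ge_atTop M₀
    have e4 : ∀ᶠ L : ℝ in atTop, Real.log L ≤ L ^ (1 / 6 : ℝ) := by
      have h := (isLittleO_log_rpow_atTop (show (0:ℝ) < 1 / 6 by norm_num)).bound (show (0:ℝ) < 1 by norm_num)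
      filter_upwards [h, eventually_gt_atTop 1] with L h1 h2
      rw [one_mul, Real.norm_eq_abs, Real.norm_eq_abs, abs_of_nonneg (Real.rpow_nonneg (by linarith) _)] at h1
      exact (le_abs_self _).trans h1
    filter_upwards [eventually_gt_atTop 64, eventually_ge_atTop C₁, e3, e4, ev1 (6 * Cl) (1 / 24) (1 / 100) (by norm_num),
      ev1 (6 * Cm) (2 / 3) (1 / 100) (by norm_num), ev2 (16 * Cs) (94 / 300) (1 / 100) (by norm_num),
      ev1 (64 * Cs) (394 / 300) (1 / 100) (by norm_num), ev2 Cl (1 / 24) (1 / 100) (by norm_num)] with L h1 h2 h3 h4 h5 h6 h7 h8 h9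
    exact ⟨h1, h2, h3, h4, h5, h6, h7, h8, h9⟩
  obtain ⟨C₂, hC₂⟩ := eventually_atTop.1 hev
  refine ⟨min (1 / 100) (cs / 96), max (max C₂ 1) (Cs + 12), max (max (max Tm Tl) Ts) 10, lt_min (by norm_num) (by positivity),
    min_le_left _ _, (le_max_right _ _).trans (le_max_left _ _), ?_⟩
  intro T L e hT hL hLT he he1
  set c := min (1 / 100) (cs / 96) with hc
  set C := max (max C₂ 1) (Cs + 12) with hC
  have hTm : Tm ≤ T := ((le_max_left _ _).trans ((le_max_left _ _).trans (le_max_left _ _))).trans hT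
  have hTl : Tl ≤ T := ((le_max_right _ _).trans ((le_max_left _ _).trans (le_max_left _ _))).trans hT
  have hTs : Ts ≤ T := ((le_max_right _ _).trans (le_max_left _ _)).trans hT
  have hT10 : (10:ℝ) ≤ T := (le_max_right _ _).trans hT
  have hC2L : C₂ ≤ L := ((le_max_left _ _).trans (le_max_left _ _)).trans hL
  have hCC : Cs + 12 ≤ C := le_max_right _ _
  obtain ⟨a1, a2, a3, a4, a5, a6, a7, a8, a9⟩ := hC₂ L hC2L
  have hL0 : 0 < L := by linarith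
  have hL1 : 1 ≤ L := by linarith
  have hc0 : 0 < c := lt_min (by norm_num) (by positivity)
  have hc1 : c ≤ 1 / 100 := min_le_left _ _
  have hcs1 : c ≤ cs / 96 := min_le_right _ _
  have hT0 : 0 < T := by linarith
  have hlT : 64 < Real.log T := by linarith
  have hspT : sp T ≤ 1 := by
    unfold sp
    rw [div_le_one (by linarith)]
    nlinarith [Real.pi_lt_four]
  have hsp0 : 0 < sp T := by unfold sp; positivity
  -- the target is at least `L ^ (-1/100)`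
  have hmain : L ^ (-(1 / 100 : ℝ)) ≤ L ^ (-(c * e ^ 2)) := by
    apply Real.rpow_le_rpow_of_exponent_le hL1
    have : c * e ^ 2 ≤ 1 / 100 * 1 := by
      apply mul_le_mul hc1 _ (by positivity) (by norm_num)
      nlinarith
    linarith
  have hpos : 0 < L ^ (-(c * e ^ 2)) := Real.rpow_pos_of_pos hL0 _
  rcases lt_or_ge e (L ^ (-(1 / 100 : ℝ))) with hsmall | hbig
  · -- trivial case
    refine ⟨Icc (T / 2) (3 * T), ?_, fun t ht u _ _ => ht⟩
    rw [Real.volume_Icc]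
    apply ENNReal.ofReal_le_ofReal
    have h1 : Real.log L ≤ 50 * L ^ (1 / 50 : ℝ) := by
      have := Real.log_le_rpow_div hL0.le (show (0:ℝ) < 1 / 50 by norm_num)
      calc Real.log L ≤ L ^ (1 / 50 : ℝ) / (1 / 50) := this
        _ = 50 * L ^ (1 / 50 : ℝ) := by ring
    have h2 : e ^ 2 ≤ L ^ (-(1 / 50 : ℝ)) := by
      calc e ^ 2 ≤ (L ^ (-(1 / 100 : ℝ))) ^ 2 := by gcongr
        _ = L ^ (-(1 / 50 : ℝ)) := by
          rw [← Real.rpow_natCast, ← Real.rpow_mul hL0.le]; norm_num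
    have h3 : e ^ 2 * Real.log L ≤ 50 := by
      calc e ^ 2 * Real.log L ≤ L ^ (-(1 / 50 : ℝ)) * (50 * L ^ (1 / 50 : ℝ)) := by
            apply mul_le_mul h2 h1 (Real.log_nonneg hL1) (by positivity)
        _ = 50 * (L ^ (-(1 / 50 : ℝ)) * L ^ (1 / 50 : ℝ)) := by ring
        _ = 50 := by rw [← Real.rpow_add hL0]; norm_num
    have h4 : Real.exp (-(1 / 2)) ≤ L ^ (-(c * e ^ 2)) := by
      rw [Real.rpow_def_of_pos hL0]
      apply Real.exp_le_exp.2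
      have : c * (e ^ 2 * Real.log L) ≤ 1 / 100 * 50 := by
        apply mul_le_mul hc1 h3 (mul_nonneg (by positivity) (Real.log_nonneg hL1)) (by norm_num)
      nlinarith
    have h5 : (1:ℝ) / 2 ≤ Real.exp (-(1 / 2)) := by
      have := Real.add_one_le_exp (-(1 / 2 : ℝ))
      linarith
    have h6 : (5:ℝ) / 2 ≤ C * L ^ (-(c * e ^ 2)) := by
      nlinarith
    nlinarith
  · -- the main case
    obtain ⟨hJ1, hJ2⟩ := card_bd L a2
    obtain ⟨a, hsum, ha, hJ, hJL⟩ := js_range (L := L) a1.le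
    set J := (Js L).card with hJdef
    have hJ0 : (0:ℝ) < J := by exact_mod_cast hJ
    have ha2 : 2 ≤ a := by
      by_contra hcon
      have : a ≤ 1 := by omega
      have h1 : (2:ℝ) ^ (6 * a) ≤ 2 ^ 6 := pow_le_pow_right₀ (by norm_num) (by omega)
      linarith [show (2:ℝ) ^ 6 = 64 by norm_num]
    have h2a : L ^ (1 / 6 : ℝ) ≤ 2 ^ a := by
      have h1 : L ^ (1 / 6 : ℝ) ≤ ((2:ℝ) ^ (6 * a)) ^ (1 / 6 : ℝ) := Real.rpow_le_rpow hL0.le ha (by norm_num)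
      have h2 : ((2:ℝ) ^ (6 * a)) ^ (1 / 6 : ℝ) = 2 ^ a := by
        rw [← Real.rpow_natCast, ← Real.rpow_mul (by norm_num), ← Real.rpow_natCast]
        congr 1
        push_cast
        ring
      linarith
    have hJa : J ≤ 2 ^ a := by
      have : (J : ℝ) ≤ ((2 ^ a : ℕ) : ℝ) := by
        push_cast
        linarith
      exact_mod_cast this
    have hpw : (2:ℝ) ^ (a + J) ≤ 2 * L ^ (1 / 3 : ℝ) := by
      have h1 : (2:ℝ) ^ (a + J) = 2 * 2 ^ (a + J - 1) := by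
        rw [← pow_succ']
        congr 1
        omega
      have h2 : (2:ℝ) ^ (a + J - 1) ≤ L ^ (1 / 3 : ℝ) := by
        have h3 : ((2:ℝ) ^ (3 * (a + J - 1))) ^ (1 / 3 : ℝ) ≤ L ^ (1 / 3 : ℝ) := Real.rpow_le_rpow (by positivity) hJL (by norm_num)
        have h4 : ((2:ℝ) ^ (3 * (a + J - 1))) ^ (1 / 3 : ℝ) = 2 ^ (a + J - 1) := by
          rw [← Real.rpow_natCast, ← Real.rpow_mul (by norm_num), ← Real.rpow_natCast]
          congr 1
          push_cast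
          ring
        linarith
      linarith
    have hlog2 : 1 / 2 ≤ Real.log T / 2 ^ (a + J) := by
      rw [le_div_iff₀ (by positivity)]
      have h1 : L ^ (1 / 3 : ℝ) ≤ L := by
        calc L ^ (1 / 3 : ℝ) ≤ L ^ (1 : ℝ) := Real.rpow_le_rpow_of_exponent_le hL1 (by norm_num)
          _ = L := Real.rpow_one L
      linarith
    obtain ⟨B, hB1, hB2⟩ := ss_thick T (e / 4) a J hTs hJ hJa ha2 hlog2 (by positivity) (by linarith)
    have hloss : ∀ j : ℕ, ∃ E : Set ℝ, j ∈ Js L → volume E ≤ ENNReal.ofReal (Cl / ((2:ℝ) ^ j) ^ (1 / 4 : ℝ) * T) ∧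
        ∀ t ∈ Icc (T / 2) (3 * T), ∀ u : ℝ, |u - t| ≤ sp T →
        Cl / ((2:ℝ) ^ j) ^ (1 / 4 : ℝ) < |NX (XX T (2 ^ j)) u - (MM (XX T (2 ^ j)) u - SS (XX T (2 ^ j)) u)| → t ∈ E := by
      intro j
      by_cases hj : j ∈ Js L
      · obtain ⟨b1, b2⟩ := mem_Js hL1 hj
        have b3 : (2:ℝ) ^ j ≤ Real.log T := by
          have h1 : L ^ (1 / 3 : ℝ) ≤ L := by
            calc L ^ (1 / 3 : ℝ) ≤ L ^ (1 : ℝ) := Real.rpow_le_rpow_of_exponent_le hL1 (by norm_num)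
              _ = L := Real.rpow_one L
          linarith
        obtain ⟨E, hE⟩ := loss_thick T (2 ^ j) hTl (a3.trans b1) b3
        exact ⟨E, fun _ => hE⟩
      · exact ⟨∅, fun h => absurd h hj⟩
    choose E hE using hloss
    have hM : ∀ j ∈ Js L, Cl / ((2:ℝ) ^ j) ^ (1 / 4 : ℝ) ≤ Cl * L ^ (-(1 / 24 : ℝ)) := by
      intro j hj
      obtain ⟨b1, b2⟩ := mem_Js hL1 hj
      have h1 : L ^ (1 / 24 : ℝ) ≤ ((2:ℝ) ^ j) ^ (1 / 4 : ℝ) := by
        calc L ^ (1 / 24 : ℝ) = (L ^ (1 / 6 : ℝ)) ^ (1 / 4 : ℝ) := by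
              rw [← Real.rpow_mul hL0.le]; norm_num
          _ ≤ ((2:ℝ) ^ j) ^ (1 / 4 : ℝ) := Real.rpow_le_rpow (by positivity) b1 (by norm_num)
      rw [Real.rpow_neg hL0.le, ← div_eq_mul_inv]
      apply div_le_div_of_nonneg_left hCl.le (by positivity) h1
    refine ⟨(B ∪ ⋃ j ∈ Js L, E j) ∪ Icc (T / 2) (T / 2 + sp T), ?_, ?_⟩
    · -- the measure
      have v1 : volume (⋃ j ∈ Js L, E j) ≤ ENNReal.ofReal (J * (Cl * L ^ (-(1 / 24 : ℝ)) * T)) := by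
        calc volume (⋃ j ∈ Js L, E j) ≤ ∑ j ∈ Js L, volume (E j) := measure_biUnion_finset_le _ _
          _ ≤ ∑ j ∈ Js L, ENNReal.ofReal (Cl * L ^ (-(1 / 24 : ℝ)) * T) := by
              apply Finset.sum_le_sum
              intro j hj
              refine ((hE j hj).1).trans (ENNReal.ofReal_le_ofReal ?_)
              exact mul_le_mul_of_nonneg_right (hM j hj) hT0.le
          _ = ENNReal.ofReal (J * (Cl * L ^ (-(1 / 24 : ℝ)) * T)) := by
              rw [Finset.sum_const, nsmul_eq_mul, ← ENNReal.ofReal_natCast, ← ENNReal.ofReal_mul (by positivity)]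
      have v2 : volume (Icc (T / 2) (T / 2 + sp T)) = ENNReal.ofReal (sp T) := by
        rw [Real.volume_Icc]
        congr 1
        ring
      have hlogL : 0 ≤ Real.log L := Real.log_nonneg hL1
      have w1 : Cs * Real.exp (-(cs * (e / 4) ^ 2 * J)) ≤ Cs * L ^ (-(c * e ^ 2)) := by
        apply mul_le_mul_of_nonneg_left _ hCs.le
        rw [Real.rpow_def_of_pos hL0]
        apply Real.exp_le_exp.2
        have h1 : c * e ^ 2 * Real.log L ≤ cs / 96 * e ^ 2 * Real.log L := by gcongr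
        have h2 : cs * (e / 4) ^ 2 * (Real.log L / 6) ≤ cs * (e / 4) ^ 2 * J := by gcongr
        nlinarith
      have he2 : 1 / e ^ 2 ≤ L ^ (1 / 50 : ℝ) := by
        have h1 : L ^ (-(1 / 50 : ℝ)) ≤ e ^ 2 := by
          calc L ^ (-(1 / 50 : ℝ)) = (L ^ (-(1 / 100 : ℝ))) ^ 2 := by
                rw [← Real.rpow_natCast, ← Real.rpow_mul hL0.le]; norm_num
            _ ≤ e ^ 2 := by gcongr
        rw [Real.rpow_neg hL0.le] at h1
        rw [div_le_iff₀ (by positivity)]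
        have h2 : 0 < L ^ (1 / 50 : ℝ) := Real.rpow_pos_of_pos hL0 _
        calc (1:ℝ) = L ^ (1 / 50 : ℝ) * (L ^ (1 / 50 : ℝ))⁻¹ := by field_simp
          _ ≤ L ^ (1 / 50 : ℝ) * e ^ 2 := by gcongr
      have w2 : Cs * J * (1 / (2 ^ a * (e / 4))) ^ 2 ≤ L ^ (-(c * e ^ 2)) := by
        have h1 : (1 / (2 ^ a * (e / 4))) ^ 2 = 16 * ((1 / (2:ℝ) ^ a) ^ 2 * (1 / e ^ 2)) := by
          field_simp
          ring
        have h2 : (1 / (2:ℝ) ^ a) ^ 2 ≤ L ^ (-(1 / 3 : ℝ)) := by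
          have h3 : 1 / (2:ℝ) ^ a ≤ L ^ (-(1 / 6 : ℝ)) := by
            rw [Real.rpow_neg hL0.le, ← one_div]
            exact one_div_le_one_div_of_le (by positivity) h2a
          calc (1 / (2:ℝ) ^ a) ^ 2 ≤ (L ^ (-(1 / 6 : ℝ))) ^ 2 := by gcongr
            _ = L ^ (-(1 / 3 : ℝ)) := by rw [← Real.rpow_natCast, ← Real.rpow_mul hL0.le]; norm_num
        calc Cs * J * (1 / (2 ^ a * (e / 4))) ^ 2 = Cs * J * (16 * ((1 / (2:ℝ) ^ a) ^ 2 * (1 / e ^ 2))) := by rw [h1]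
          _ ≤ Cs * Real.log L * (16 * (L ^ (-(1 / 3 : ℝ)) * L ^ (1 / 50 : ℝ))) := by gcongr
          _ = (16 * Cs) * (Real.log L * L ^ (-(94 / 300 : ℝ))) := by
              rw [← Real.rpow_add hL0]; norm_num; ring
          _ ≤ L ^ (-(1 / 100 : ℝ)) := a7
          _ ≤ _ := hmain
      have w3 : Cs * (2 ^ (a + J) / (Real.log T * (e / 4))) ^ 2 ≤ L ^ (-(c * e ^ 2)) := by
        have h1 : (2:ℝ) ^ (a + J) / (Real.log T * (e / 4)) = 4 * ((2 ^ (a + J) / Real.log T) * (1 / e)) := by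
          field_simp
        have h2 : (2:ℝ) ^ (a + J) / Real.log T ≤ 2 * L ^ (-(2 / 3 : ℝ)) := by
          calc (2:ℝ) ^ (a + J) / Real.log T ≤ 2 * L ^ (1 / 3 : ℝ) / L := by gcongr
            _ = 2 * (L ^ (1 / 3 : ℝ) * L ^ (-1 : ℝ)) := by rw [Real.rpow_neg_one]; ring
            _ = 2 * L ^ (-(2 / 3 : ℝ)) := by rw [← Real.rpow_add hL0]; norm_num
        have h3 : (2 ^ (a + J) / (Real.log T * (e / 4))) ^ 2 = 16 * (((2:ℝ) ^ (a + J) / Real.log T) ^ 2 * (1 / e ^ 2)) := by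
          rw [h1]; ring
        calc Cs * (2 ^ (a + J) / (Real.log T * (e / 4))) ^ 2 = Cs * (16 * (((2:ℝ) ^ (a + J) / Real.log T) ^ 2 * (1 / e ^ 2))) := by rw [h3]
          _ ≤ Cs * (16 * ((2 * L ^ (-(2 / 3 : ℝ))) ^ 2 * L ^ (1 / 50 : ℝ))) := by gcongr
          _ = (64 * Cs) * ((L ^ (-(2 / 3 : ℝ))) ^ 2 * L ^ (1 / 50 : ℝ)) := by ring
          _ = (64 * Cs) * L ^ (-(394 / 300 : ℝ)) := by
              rw [← Real.rpow_natCast, ← Real.rpow_mul hL0.le, ← Real.rpow_add hL0]; norm_num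
          _ ≤ L ^ (-(1 / 100 : ℝ)) := a8
          _ ≤ _ := hmain
      have w4 : J * (Cl * L ^ (-(1 / 24 : ℝ)) * T) ≤ L ^ (-(c * e ^ 2)) * T := by
        calc J * (Cl * L ^ (-(1 / 24 : ℝ)) * T) ≤ Real.log L * (Cl * L ^ (-(1 / 24 : ℝ)) * T) := by gcongr
          _ = Cl * (Real.log L * L ^ (-(1 / 24 : ℝ))) * T := by ring
          _ ≤ L ^ (-(1 / 100 : ℝ)) * T := by gcongr
          _ ≤ _ := by gcongr
      have w5 : sp T ≤ L ^ (-(c * e ^ 2)) * T := by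
        have h1 : L ^ (-(1:ℝ)) ≤ L ^ (-(c * e ^ 2)) := by
          refine le_trans ?_ hmain
          exact Real.rpow_le_rpow_of_exponent_le hL1 (by norm_num)
        have h2 : 1 ≤ L ^ (-(1:ℝ)) * T := by
          rw [Real.rpow_neg_one, inv_mul_eq_div, le_div_iff₀ hL0, one_mul]
          have := Real.log_le_sub_one_of_pos hT0
          linarith
        calc sp T ≤ 1 := hspT
          _ ≤ L ^ (-(1:ℝ)) * T := h2
          _ ≤ _ := by gcongr
      calc volume ((B ∪ ⋃ j ∈ Js L, E j) ∪ Icc (T / 2) (T / 2 + sp T))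
          ≤ volume B + volume (⋃ j ∈ Js L, E j) + volume (Icc (T / 2) (T / 2 + sp T)) :=
            (measure_union_le _ _).trans (add_le_add_left (measure_union_le _ _) _)
        _ ≤ ENNReal.ofReal ((Cs * Real.exp (-(cs * (e / 4) ^ 2 * J)) + Cs * J * (1 / (2 ^ a * (e / 4))) ^ 2 +
              Cs * (2 ^ (a + J) / (Real.log T * (e / 4))) ^ 2) * T) + ENNReal.ofReal (J * (Cl * L ^ (-(1 / 24 : ℝ)) * T)) +
              ENNReal.ofReal (sp T) := by
            rw [v2]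
            gcongr
        _ = ENNReal.ofReal ((Cs * Real.exp (-(cs * (e / 4) ^ 2 * J)) + Cs * J * (1 / (2 ^ a * (e / 4))) ^ 2 +
              Cs * (2 ^ (a + J) / (Real.log T * (e / 4))) ^ 2) * T + J * (Cl * L ^ (-(1 / 24 : ℝ)) * T) + sp T) := by
            rw [ENNReal.ofReal_add (by positivity) (by positivity), ENNReal.ofReal_add (by positivity) (by positivity)]
        _ ≤ ENNReal.ofReal (C * L ^ (-(c * e ^ 2)) * T) := by
            apply ENNReal.ofReal_le_ofReal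
            have w6 : (Cs * Real.exp (-(cs * (e / 4) ^ 2 * J)) + Cs * J * (1 / (2 ^ a * (e / 4))) ^ 2 +
              Cs * (2 ^ (a + J) / (Real.log T * (e / 4))) ^ 2) * T ≤ (Cs * L ^ (-(c * e ^ 2)) + L ^ (-(c * e ^ 2)) + L ^ (-(c * e ^ 2))) * T := by
              gcongr
            have w7 : (Cs + 4) * L ^ (-(c * e ^ 2)) * T ≤ C * L ^ (-(c * e ^ 2)) * T := by
              gcongr
              linarith
            nlinarith
    · -- the pointwise bound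
      intro t ht u hu hbad
      by_contra hcon
      have hnB : t ∉ B := fun h => hcon (Or.inl (Or.inl h))
      have hnE : ∀ j ∈ Js L, t ∉ E j := fun j hj h => hcon (Or.inl (Or.inr (mem_iUnion₂.2 ⟨j, hj, h⟩)))
      have hnI : t ∉ Icc (T / 2) (T / 2 + sp T) := fun h => hcon (Or.inr h)
      have htl : T / 2 + sp T < t := by
        by_contra h
        exact hnI ⟨ht.1, not_lt.1 h⟩
      have huJ : u ∈ Pool.Agent.Helper57.TX.JJ T := by
        unfold Pool.Agent.Helper57.TX.JJ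
        have := abs_le.1 hu
        constructor
        · linarith [this.1]
        · linarith [this.2, ht.2]
      have s1 : |∑ j ∈ Js L, SS (XX T (2 ^ j)) u| ≤ e / 4 * J := by
        rw [hsum]
        exact hB2 t ht hnB u hu
      have s2 : ∀ j ∈ Js L, |NX (XX T (2 ^ j)) u - (MM (XX T (2 ^ j)) u - SS (XX T (2 ^ j)) u)| ≤ Cl * L ^ (-(1 / 24 : ℝ)) := by
        intro j hj
        by_contra h
        push Not at h
        exact hnE j hj ((hE j hj).2 t ht u hu ((hM j hj).trans_lt h))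
      have s3 : ∀ j ∈ Js L, |MM (XX T (2 ^ j)) u - 2 ^ j| ≤ Cm * L ^ (-(2 / 3 : ℝ)) := by
        intro j hj
        obtain ⟨b1, b2⟩ := mem_Js hL1 hj
        have h1 : L ^ (1 / 3 : ℝ) ≤ L := by
          calc L ^ (1 / 3 : ℝ) ≤ L ^ (1 : ℝ) := Real.rpow_le_rpow_of_exponent_le hL1 (by norm_num)
            _ = L := Real.rpow_one L
        refine (mm_main T (2 ^ j) u hTm (one_le_pow₀ (by norm_num)) (by linarith) huJ).trans ?_
        apply mul_le_mul_of_nonneg_left _ hCm.le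
        calc (2:ℝ) ^ j / Real.log T ≤ L ^ (1 / 3 : ℝ) / L := by gcongr
          _ = L ^ (1 / 3 : ℝ) * L ^ (-1 : ℝ) := by rw [Real.rpow_neg_one]; ring
          _ = L ^ (-(2 / 3 : ℝ)) := by rw [← Real.rpow_add hL0]; norm_num
      have hdec : Tot T L u - AL L = wJ L * (∑ j ∈ Js L, (NX (XX T (2 ^ j)) u - (MM (XX T (2 ^ j)) u - SS (XX T (2 ^ j)) u)) +
          ∑ j ∈ Js L, (MM (XX T (2 ^ j)) u - 2 ^ j) - ∑ j ∈ Js L, SS (XX T (2 ^ j)) u) := by
        rw [tot_eq (by linarith)]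
        unfold Pool.Agent.Helper24.NR.AL
        rw [← mul_sub, ← Finset.sum_sub_distrib, ← Finset.sum_add_distrib, ← Finset.sum_sub_distrib]
        congr 1
        apply Finset.sum_congr rfl
        intro j _
        ring
      have hw : wJ L = 3 / (2 * (J : ℝ)) := rfl
      have hw0 : 0 < wJ L := by rw [hw]; positivity
      have t1 : |∑ j ∈ Js L, (NX (XX T (2 ^ j)) u - (MM (XX T (2 ^ j)) u - SS (XX T (2 ^ j)) u))| ≤ J * (Cl * L ^ (-(1 / 24 : ℝ))) := by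
        refine (Finset.abs_sum_le_sum_abs _ _).trans ?_
        refine (Finset.sum_le_sum s2).trans ?_
        rw [Finset.sum_const, nsmul_eq_mul]
      have t2 : |∑ j ∈ Js L, (MM (XX T (2 ^ j)) u - 2 ^ j)| ≤ J * (Cm * L ^ (-(2 / 3 : ℝ))) := by
        refine (Finset.abs_sum_le_sum_abs _ _).trans ?_
        refine (Finset.sum_le_sum s3).trans ?_
        rw [Finset.sum_const, nsmul_eq_mul]
      have t3 : |Tot T L u - AL L| ≤ wJ L * (J * (Cl * L ^ (-(1 / 24 : ℝ))) + J * (Cm * L ^ (-(2 / 3 : ℝ))) + e / 4 * J) := by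
        rw [hdec, abs_mul, abs_of_pos hw0]
        apply mul_le_mul_of_nonneg_left _ hw0.le
        refine (abs_sub _ _).trans ?_
        refine add_le_add ((abs_add_le _ _).trans (add_le_add t1 t2)) s1
      have t4 : wJ L * (J * (Cl * L ^ (-(1 / 24 : ℝ))) + J * (Cm * L ^ (-(2 / 3 : ℝ))) + e / 4 * J) =
          (6 * Cl * L ^ (-(1 / 24 : ℝ))) / 4 + (6 * Cm * L ^ (-(2 / 3 : ℝ))) / 4 + 3 / 8 * e := by
        rw [hw]
        field_simp
        ring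
      have : |Tot T L u - AL L| ≤ e := by
        rw [t4] at t3
        linarith
      linarith

end Pool.Agent.Helper53.NR
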